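/-
Row d2:bSJB (helper43's SpecB): elementary bounds on the exponents.  Author: helper87.
-/
import Pool.Agent.helper43.DHB.SpecB

set_option autoImplicit false

open Filter Topology MeasureTheory
open scoped commutatorElement

namespace Pool.Agent.helper90.DH

open Pool.Agent.helper64.D2

theorem bSJB_mono (s0 t : ℕ) : s0 ≤ sj s0 t := by
  induction t with
  | zero => exact le_rfl
  | succ t ih =>
    show s0 ≤ sj s0 t + sj s0 t / 4
    omega

theorem bSJB : bSJB_stmt := by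
  intro w0 M
  refine ⟨100 * (3 * w0 * 2 ^ w0 + M + w0 + 2000), fun ρ hρ t => ?_⟩
  have hw : w0 ≤ 3 * w0 * 2 ^ w0 := by
    have : 1 ≤ 2 ^ w0 := Nat.one_le_two_pow
    nlinarith
  have hφ : ∀ φ < 2 ^ w0, 3 * w0 * φ ≤ 3 * w0 * 2 ^ w0 := fun φ h => Nat.mul_le_mul le_rfl h.le
  generalize hK : 3 * w0 * 2 ^ w0 = K at hρ hw hφ ⊢
  have hρ2 : ρ ≤ ρ ^ 2 := by nlinarith
  have hρ3 : 1024000 ≤ ρ ^ 3 := by
    have h1 : 200 ≤ ρ := by omega
    have h2 : 200 ^ 3 ≤ ρ ^ 3 := Nat.pow_le_pow_left h1 3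
    exact le_trans (by norm_num) h2
  have hS := bSJB_mono (ρ ^ 2) t
  have hsucc : sj (ρ ^ 2) (t + 1) = sj (ρ ^ 2) t + sj (ρ ^ 2) t / 4 := rfl
  have hX : (sj (ρ ^ 2) (t + 1) / ρ ^ 3) * 1024000 ≤ sj (ρ ^ 2) (t + 1) :=
    (Nat.mul_le_mul le_rfl hρ3).trans (Nat.div_mul_le_self _ _)
  have h0 : sj (ρ ^ 2) 0 = ρ ^ 2 := rfl
  rw [hsucc] at hX ⊢
  rcases Nat.eq_zero_or_pos t with ht | ht
  · subst ht
    have hb : bu w0 (ρ ^ 2) 0 = (ρ ^ 2 - w0) / 4 := by simp [bu]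
    have ha : ∀ φ, amp w0 (ρ ^ 2) 0 φ = ρ ^ 2 - w0 := fun φ => by simp [amp]
    rw [hb]
    simp only [ha, h0] at hX hS ⊢
    generalize (ρ ^ 2 + ρ ^ 2 / 4) / ρ ^ 3 = X at *
    generalize ρ ^ 2 = S at *
    generalize ρ ^ 3 = C at *
    refine ⟨by omega, by omega, by omega, by omega, by omega, fun φ _ => ⟨by omega, by omega, fun h => by omega⟩, by omega⟩
  · have hb : bu w0 (ρ ^ 2) t = sj (ρ ^ 2) t / 4 := by simp [bu, ht.ne']
    have ha : ∀ φ, amp w0 (ρ ^ 2) t φ = sj (ρ ^ 2) t + 3 * w0 * φ := fun φ => by simp [amp, ht.ne']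
    rw [hb]
    simp only [ha]
    generalize (sj (ρ ^ 2) t + sj (ρ ^ 2) t / 4) / ρ ^ 3 = X at *
    generalize sj (ρ ^ 2) t = S at *
    generalize ρ ^ 2 = R at *
    generalize ρ ^ 3 = C at *
    refine ⟨by omega, by omega, by omega, by omega, by omega, fun φ h => ?_, by omega⟩
    have h1 := hφ φ h
    generalize 3 * w0 * φ = F at *
    exact ⟨by omega, by omega, fun _ => by omega⟩

end Pool.Agent.helper90.DH
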